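import Pool.Agent.helper23.CS.Spec

/-! # Row cs:DER (helper33) -/

open Finset

namespace CS

section
variable {V ι : Type} [Fintype V] [DecidableEq V]

theorem DER_Zf (G : MG V ι) (b : ℝ) (E : Finset ι) (f : (V → Bool) → ℝ) :
    HasDerivAt (fun b => Zf G b E f) (∑ e ∈ E, Zf G b E (fun σ => f σ * mm G e σ)) b := by
  have h : HasDerivAt (fun b => Zf G b E f)
      (∑ σ : V → Bool, (Real.exp (b * ∑ e ∈ E, mm G e σ) * (1 * ∑ e ∈ E, mm G e σ)) * f σ) b := by
    unfold Zf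
    refine HasDerivAt.fun_sum fun σ _ => ?_
    refine HasDerivAt.mul_const ?_ (f σ)
    exact ((hasDerivAt_id b).mul_const _).exp
  have e : (∑ e ∈ E, Zf G b E (fun σ => f σ * mm G e σ)) =
      ∑ σ : V → Bool, (Real.exp (b * ∑ e ∈ E, mm G e σ) * (1 * ∑ e ∈ E, mm G e σ)) * f σ := by
    unfold Zf
    rw [Finset.sum_comm]
    refine Finset.sum_congr rfl fun σ _ => ?_
    rw [one_mul]
    have : Real.exp (b * ∑ e ∈ E, mm G e σ) * (∑ e ∈ E, mm G e σ) * f σ =
        (Real.exp (b * ∑ e ∈ E, mm G e σ) * f σ) * ∑ e ∈ E, mm G e σ := by ring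
    rw [this, Finset.mul_sum E (fun e => mm G e σ) (Real.exp (b * ∑ e ∈ E, mm G e σ) * f σ)]
    exact Finset.sum_congr rfl fun e _ => by dsimp only; ring
  rw [e]
  exact h

end

theorem DER : DER_stmt := by
  intro V ι _ _ _ G b E a z
  have hN : (Zf G b E fun _ => 1) ≠ 0 := (Zf_pos G b E).ne'
  have h1 := DER_Zf G b E (fun σ => CU.sg (σ a) * CU.sg (σ z))
  have h2 := DER_Zf G b E (fun _ => 1)
  have h := h1.div h2 hN
  have e : (∑ e ∈ E, (mf G b E (fun σ => CU.sg (σ a) * CU.sg (σ z) * mm G e σ) -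
      cor G b E a z * cor G b E (G.s e) (G.t e))) =
      ((∑ e ∈ E, Zf G b E (fun σ => CU.sg (σ a) * CU.sg (σ z) * mm G e σ)) * (Zf G b E fun _ => 1) -
        (Zf G b E fun σ => CU.sg (σ a) * CU.sg (σ z)) * ∑ e ∈ E, Zf G b E (fun σ => (fun _ => (1 : ℝ)) σ * mm G e σ)) /
        (Zf G b E fun _ => 1) ^ 2 := by
    rw [Finset.sum_mul, Finset.mul_sum, ← Finset.sum_sub_distrib, Finset.sum_div]
    refine Finset.sum_congr rfl fun e _ => ?_
    have e2 : cor G b E (G.s e) (G.t e) = Zf G b E (fun σ => (fun _ => (1 : ℝ)) σ * mm G e σ) / Zf G b E fun _ => 1 := by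
      unfold cor mf
      congr 1
      unfold Zf mm
      exact Finset.sum_congr rfl fun σ _ => by ring
    rw [e2]
    unfold cor mf
    field_simp
  rw [e]
  exact h

end CS
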