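import Pool.Agent.helper23.CS.Spec

/-! # Row cs:DI (helper33) -/

open Finset

namespace CS

section
variable {V ι : Type} [Fintype V] [DecidableEq V] [DecidableEq ι]

theorem DI_FS_add (G : MG V ι) (b : ℝ) (E : Finset ι) (F H : Finset ι → ℝ) :
    FS G b E (fun ω => F ω + H ω) = FS G b E F + FS G b E H := by
  unfold FS
  rw [← Finset.sum_add_distrib]
  exact Finset.sum_congr rfl fun _ _ => by ring

theorem DI_FS_sum {κ : Type} (G : MG V ι) (b : ℝ) (E : Finset ι) (s : Finset κ) (F : κ → Finset ι → ℝ) :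
    FS G b E (fun ω => ∑ k ∈ s, F k ω) = ∑ k ∈ s, FS G b E (F k) := by
  unfold FS
  rw [Finset.sum_comm]
  exact Finset.sum_congr rfl fun _ _ => by rw [Finset.mul_sum]

theorem DI_FS_congr (G : MG V ι) (b : ℝ) (E : Finset ι) {F H : Finset ι → ℝ} (h : ∀ ω ⊆ E, F ω = H ω) :
    FS G b E F = FS G b E H := by
  unfold FS
  exact Finset.sum_congr rfl fun ω hω => by rw [h ω (Finset.mem_powerset.mp hω)]

theorem DI_wf_nonneg (G : MG V ι) {b : ℝ} (hb : 0 ≤ b) (E ω : Finset ι) : 0 ≤ wf G b E ω := by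
  unfold wf
  have h1 : Real.exp (-2 * b) ≤ 1 := Real.exp_le_one_iff.mpr (by linarith)
  have h2 := KN_pos G ω
  have h3 : 0 ≤ 1 - Real.exp (-2 * b) := by linarith
  have h4 := Real.exp_pos (-2 * b)
  positivity

theorem DI_FS_mono (G : MG V ι) {b : ℝ} (hb : 0 ≤ b) (E : Finset ι) {F H : Finset ι → ℝ} (h : ∀ ω ⊆ E, F ω ≤ H ω) :
    FS G b E F ≤ FS G b E H := by
  unfold FS
  exact Finset.sum_le_sum fun ω hω => mul_le_mul_of_nonneg_left (h ω (Finset.mem_powerset.mp hω)) (DI_wf_nonneg G hb E ω)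

/-- pointwise lower bound: sum over the clusters -/
theorem DI_point (G : MG V ι) (E ω : Finset ι) (a z : V) (f : Finset V → ℝ) (hf : True)  :
    ∑ S ∈ (univ : Finset (Finset V)).filter (fun S => a ∈ S ∧ z ∉ S), f S * ind (Cz G ω z = S) =
      ind (¬ Conn G ω a z) * f (Cz G ω z) := by
  classical
  by_cases h : Conn G ω a z
  · rw [ind_false (not_not.mpr h), zero_mul]
    refine Finset.sum_eq_zero fun S hS => ?_
    rw [Finset.mem_filter] at hS
    rw [ind_false, mul_zero]
    rintro rfl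
    exact ((mem_Cz G ω z a).mp hS.2.1) h
  · rw [ind_true h, one_mul]
    rw [Finset.sum_eq_single (Cz G ω z)]
    · rw [ind_true rfl, mul_one]
    · intro S _ hne
      rw [ind_false (fun h => hne h.symm), mul_zero]
    · intro hn
      exfalso
      apply hn
      rw [Finset.mem_filter]
      refine ⟨mem_univ _, (mem_Cz G ω z a).mpr h, fun hz => ((mem_Cz G ω z z).mp hz) (Conn_refl G ω z)⟩

end

theorem DI (hDER : DER_stmt) (hEDG : EDG_stmt) (hMKV : MKV_stmt) (hRCO : RCO_stmt) : DI_stmt := by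
  classical
  intro V ι _ _ _ _ G b E hb a z c hc
  refine ⟨_, hDER V ι G b E a z, ?_⟩
  obtain ⟨hpos, _, hcor, hcb⟩ := hRCO V ι G b E hb
  set N := FS G b E (fun _ => 1) with hN
  -- termwise EDG
  have h1 : (∑ e ∈ E, FS G b E (fun ω => ind (¬ Conn G ω a z) *
        (ind (Conn G ω a (G.s e) ∧ Conn G ω (G.t e) z) + ind (Conn G ω a (G.t e) ∧ Conn G ω (G.s e) z)))) / N ≤
      ∑ e ∈ E, (mf G b E (fun σ => CU.sg (σ a) * CU.sg (σ z) * mm G e σ) -
        cor G b E a z * cor G b E (G.s e) (G.t e)) := by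
    rw [Finset.sum_div]
    exact Finset.sum_le_sum fun e _ => hEDG V ι G b E hb a z (G.s e) (G.t e)
  refine le_trans ?_ h1
  rw [le_div_iff₀ hpos]
  -- the sum over clusters
  have h2 : (1 - cor G b E a z) * N = FS G b E (fun ω => ind (¬ Conn G ω a z)) := by
    rw [hcor a z, sub_mul, one_mul, div_mul_cancel₀ _ hpos.ne']
    have : FS G b E (fun ω => ind (¬ Conn G ω a z)) + FS G b E (fun ω => ind (Conn G ω a z)) = N := by
      rw [← DI_FS_add, hN]
      exact DI_FS_congr G b E fun ω _ => by rw [ind_not]; ring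
    linarith
  rw [mul_assoc, h2]
  set T := (univ : Finset (Finset V)).filter (fun S => a ∈ S ∧ z ∉ S) with hT
  have h3 : FS G b E (fun ω => ind (¬ Conn G ω a z)) = ∑ S ∈ T, FS G b E (fun ω => ind (Cz G ω z = S)) := by
    rw [← DI_FS_sum]
    refine DI_FS_congr G b E fun ω _ => ?_
    have := DI_point G E ω a z (fun _ => 1) trivial
    simp only [one_mul, mul_one] at this
    exact this.symm
  have hcs : c * FS G b E (fun ω => ind (¬ Conn G ω a z)) ≤ ∑ S ∈ T, psi G b E S a * FS G b E (fun ω => ind (Cz G ω z = S)) := by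
    rw [h3, Finset.mul_sum]
    refine Finset.sum_le_sum fun S hS => ?_
    rw [hT, Finset.mem_filter] at hS
    refine mul_le_mul_of_nonneg_right (hc S hS.2.1 hS.2.2) ?_
    unfold FS
    exact Finset.sum_nonneg fun ω _ => mul_nonneg (DI_wf_nonneg G hb E ω) (ind_nonneg _)
  refine le_trans hcs ?_
  have h4 : ∑ S ∈ T, psi G b E S a * FS G b E (fun ω => ind (Cz G ω z = S)) =
      FS G b E (fun ω => ∑ S ∈ T, (∑ e ∈ oS G E S, ind (Conn G ω a (G.s e)) + ∑ e ∈ oT G E S, ind (Conn G ω a (G.t e))) *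
        ind (Cz G ω z = S)) := by
    rw [DI_FS_sum]
    refine Finset.sum_congr rfl fun S hS => ?_
    rw [hT, Finset.mem_filter] at hS
    have e1 : ∀ e ∈ oS G E S, cor G b (ins G E S) a (G.s e) * FS G b E (fun ω => ind (Cz G ω z = S)) =
        FS G b E (fun ω => ind (Cz G ω z = S) * ind (Conn G ω a (G.s e))) := by
      intro e he
      have hse : G.s e ∈ S := (Finset.mem_filter.mp he).2.1
      exact (hMKV V ι G b E S a (G.s e) z hb hS.2.1 hse hS.2.2).symm
    have e2 : ∀ e ∈ oT G E S, cor G b (ins G E S) a (G.t e) * FS G b E (fun ω => ind (Cz G ω z = S)) =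
        FS G b E (fun ω => ind (Cz G ω z = S) * ind (Conn G ω a (G.t e))) := by
      intro e he
      have hse : G.t e ∈ S := (Finset.mem_filter.mp he).2.1
      exact (hMKV V ι G b E S a (G.t e) z hb hS.2.1 hse hS.2.2).symm
    unfold psi
    rw [add_mul, Finset.sum_mul, Finset.sum_mul, Finset.sum_congr rfl e1, Finset.sum_congr rfl e2,
      ← DI_FS_sum, ← DI_FS_sum, ← DI_FS_add]
    refine DI_FS_congr G b E fun ω _ => ?_
    rw [add_mul, Finset.sum_mul, Finset.sum_mul]
    congr 1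
    · exact Finset.sum_congr rfl fun e _ => by ring
    · exact Finset.sum_congr rfl fun e _ => by ring
  rw [h4, ← DI_FS_sum]
  refine DI_FS_mono G hb E fun ω _ => ?_
  rw [DI_point G E ω a z (fun S => ∑ e ∈ oS G E S, ind (Conn G ω a (G.s e)) + ∑ e ∈ oT G E S, ind (Conn G ω a (G.t e))) trivial]
  rw [← Finset.mul_sum]
  refine mul_le_mul_of_nonneg_left ?_ (ind_nonneg _)
  rw [Finset.sum_add_distrib]
  refine add_le_add ?_ ?_
  · unfold oS
    rw [Finset.sum_filter]
    refine Finset.sum_le_sum fun e _ => ?_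
    by_cases hh : G.s e ∈ Cz G ω z ∧ G.t e ∉ Cz G ω z
    · rw [if_pos hh]
      refine ind_mono fun h => ⟨h, ?_⟩
      by_contra hne
      exact hh.2 ((mem_Cz G ω z _).mpr hne)
    · rw [if_neg hh]
      exact ind_nonneg _
  · unfold oT
    rw [Finset.sum_filter]
    refine Finset.sum_le_sum fun e _ => ?_
    by_cases hh : G.t e ∈ Cz G ω z ∧ G.s e ∉ Cz G ω z
    · rw [if_pos hh]
      refine ind_mono fun h => ⟨h, ?_⟩
      by_contra hne
      exact hh.2 ((mem_Cz G ω z _).mpr hne)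
    · rw [if_neg hh]
      exact ind_nonneg _

end CS
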