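import Pool.Agent.helper23.CS.Spec

/-! # Row cs:MKC (helper33) -/

open Finset

namespace CS

theorem MKC : MKC_stmt := by
  classical
  intro V ι _ _ _ G E ω S z hωE hz
  constructor
  · rintro hC
    have hmem : ∀ v, v ∈ S ↔ ¬ Conn G ω v z := fun v => by rw [← hC]; exact mem_Cz G ω z v
    have hedge : ∀ e ∈ ω, (G.s e ∈ S ∧ G.t e ∈ S) ∨ (G.s e ∉ S ∧ G.t e ∉ S) := by
      intro e he
      by_cases h1 : G.s e ∈ S
      · by_cases h2 : G.t e ∈ S
        · exact Or.inl ⟨h1, h2⟩
        · exfalso
          have h3 : Conn G ω (G.t e) z := by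
            by_contra h; exact h2 ((hmem _).mpr h)
          exact ((hmem _).mp h1) (Conn_trans (Conn_edge he) h3)
      · by_cases h2 : G.t e ∈ S
        · exfalso
          have h3 : Conn G ω (G.s e) z := by
            by_contra h; exact h1 ((hmem _).mpr h)
          exact ((hmem _).mp h2) (Conn_trans (Conn_symm (Conn_edge he)) h3)
        · exact Or.inr ⟨h1, h2⟩
    refine ⟨hedge, fun v hv => ?_⟩
    intro σ hσ
    have hvz : Conn G ω v z := by
      by_contra h; exact hv ((hmem _).mpr h)
    have h4 := hvz (fun x => if x ∈ S then true else σ x) (by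
      intro e he
      rcases hedge e he with h | h
      · simp [h.1, h.2]
      · have := hσ e (Finset.mem_filter.mpr ⟨he, h⟩)
        simp only [h.1, h.2, if_false]
        exact this)
    simpa [hv, hz] using h4
  · rintro ⟨h1, h2⟩
    ext v
    rw [mem_Cz]
    constructor
    · intro h
      by_contra hv
      exact h (Conn_mono (Finset.filter_subset _ _) (h2 v hv))
    · intro hv hc
      have h4 := hc (fun x => decide (x ∈ S)) (by
        intro e he
        rcases h1 e he with h | h
        · simp [h.1, h.2]
        · simp [h.1, h.2])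
      simp [hv, hz] at h4

end CS
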