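import Pool.Agent.helper23.CS.Spec

/-! # Row cs:MKF (helper33) -/

open Finset

namespace CS

/-- exchange of the parts outside `S` -/
def MKF_sw {V : Type} [DecidableEq V] (S : Finset V) (p : (V → Bool) × (V → Bool)) : (V → Bool) × (V → Bool) :=
  (fun x => if x ∈ S then p.1 x else p.2 x, fun x => if x ∈ S then p.2 x else p.1 x)

theorem MKF_sw_sw {V : Type} [DecidableEq V] (S : Finset V) (p : (V → Bool) × (V → Bool)) :
    MKF_sw S (MKF_sw S p) = p := by
  unfold MKF_sw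
  refine Prod.ext ?_ ?_
  · funext x
    by_cases h : x ∈ S <;> simp [h]
  · funext x
    by_cases h : x ∈ S <;> simp [h]

theorem MKF : MKF_stmt := by
  classical
  intro V ι _ _ _ G ω₁ ω₂ S f h1 h2 hf
  have hdis : Disjoint ω₁ ω₂ := by
    rw [Finset.disjoint_left]
    intro e he he'
    exact (h2 e he').1 (h1 e he).1
  have hL : (Fintype.card (V → Bool) : ℝ) * KK G (ω₁ ∪ ω₂) f =
      ∑ p : (V → Bool) × (V → Bool), ((∏ e ∈ ω₁, dd G e p.1) * (∏ e ∈ ω₂, dd G e p.1)) * f p.1 := by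
    rw [Fintype.sum_prod_type]
    unfold KK
    simp only [Finset.sum_const, Finset.card_univ, nsmul_eq_mul]
    rw [Finset.mul_sum]
    exact Finset.sum_congr rfl fun σ _ => by rw [Finset.prod_union hdis]
  have hR : KK G ω₁ f * KN G ω₂ =
      ∑ p : (V → Bool) × (V → Bool), ((∏ e ∈ ω₁, dd G e p.1) * (∏ e ∈ ω₂, dd G e p.2)) * f p.1 := by
    rw [Fintype.sum_prod_type]
    unfold KN KK
    rw [Finset.sum_mul_sum]
    exact Finset.sum_congr rfl fun σ _ => Finset.sum_congr rfl fun τ _ => by ring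
  rw [hL, hR]
  have hbij : Function.Involutive (MKF_sw (V := V) S) := MKF_sw_sw S
  rw [← Equiv.sum_comp (hbij.toPerm (MKF_sw (V := V) S))]
  refine Finset.sum_congr rfl fun p _ => ?_
  rw [Function.Involutive.coe_toPerm]
  have e1 : ∏ e ∈ ω₁, dd G e (MKF_sw S p).1 = ∏ e ∈ ω₁, dd G e p.1 := by
    refine Finset.prod_congr rfl fun e he => ?_
    unfold dd MKF_sw
    simp [(h1 e he).1, (h1 e he).2]
  have e2 : ∏ e ∈ ω₂, dd G e (MKF_sw S p).1 = ∏ e ∈ ω₂, dd G e p.2 := by
    refine Finset.prod_congr rfl fun e he => ?_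
    unfold dd MKF_sw
    simp [(h2 e he).1, (h2 e he).2]
  have e3 : f (MKF_sw S p).1 = f p.1 := by
    refine hf _ _ fun x hx => ?_
    unfold MKF_sw
    simp [hx]
  rw [e1, e2, e3]

end CS
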