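import Pool.Agent.helper23.CS.Spec

/-! # Row cs:MONO (helper33) -/

open Finset

namespace CS

theorem MONO (hDI : DI_stmt) (hRCO : RCO_stmt) : MONO_stmt := by
  intro V ι _ _ _ _ G E a z
  have key : ∀ b : ℝ, 0 ≤ b → ∃ D : ℝ, HasDerivAt (fun b => cor G b E a z) D b ∧ 0 ≤ D := by
    intro b hb
    obtain ⟨D, hD, h⟩ := hDI V ι G b E hb a z 0 (fun S _ _ => by
      have hR := (hRCO V ι G b (ins G E S) hb).2.2.2
      unfold psi
      exact add_nonneg (Finset.sum_nonneg fun e _ => (hR _ _).1) (Finset.sum_nonneg fun e _ => (hR _ _).1))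
    exact ⟨D, hD, by simpa using h⟩
  refine monotoneOn_of_deriv_nonneg (convex_Ici 0) ?_ ?_ ?_
  · intro b hb
    obtain ⟨D, hD, _⟩ := key b hb
    exact hD.continuousAt.continuousWithinAt
  · intro b hb
    rw [interior_Ici] at hb
    obtain ⟨D, hD, _⟩ := key b (le_of_lt hb)
    exact hD.differentiableAt.differentiableWithinAt
  · intro b hb
    rw [interior_Ici] at hb
    obtain ⟨D, hD, h⟩ := key b (le_of_lt hb)
    rw [hD.deriv]
    exact h

end CS
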